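import Pool.Agent.MWPN.Stmts

set_option autoImplicit false

/-!
# Block MWPN, row MAP: what a substitution does with the four letters (adapted from helper23)
-/

namespace Pool.Agent.MWPN.H77

open Pool.Agent.Helper14_MV Pool.Agent.Helper2_MV Pool.Agent.MWF Pool.Agent.MWP

/-- position of a letter in `c0 v` -/
def rk (n : ℕ) : ℕ :=
  if n = 1 then 0 else if n = 5 then 1 else if n = 2 then 2 else if n = 3 then 4
  else if n = 6 then 5 else if n = 4 then 6 else 3

theorem mem_V7 {v : List ℕ} {x : ℕ} (h : x ∈ V7 v) : 7 ≤ x := by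
  unfold V7 at h
  obtain ⟨d, -, rfl⟩ := List.mem_map.1 h
  omega

theorem rk_V7 {v : List ℕ} {x : ℕ} (h : x ∈ V7 v) : rk x = 3 := by
  have h1 := mem_V7 h
  unfold rk
  rw [if_neg (by omega), if_neg (by omega), if_neg (by omega), if_neg (by omega),
    if_neg (by omega), if_neg (by omega)]

theorem V7_dbl {v : List ℕ} (hm : Mul v) {x : ℕ} (h : x ∈ V7 v) : [x, x].Sublist (V7 v) := by
  unfold V7 at h ⊢
  obtain ⟨d, hd, rfl⟩ := List.mem_map.1 h
  exact (hm d hd).map (fun c => c + 7)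

theorem c0_pw (v : List ℕ) : (c0 v).Pairwise (fun a b => rk a ≤ rk b) := by
  unfold c0
  rw [List.pairwise_append, List.pairwise_append]
  refine ⟨⟨by decide, ?_, ?_⟩, by decide, ?_⟩
  · rw [List.pairwise_iff_forall_sublist]
    intro a b hab
    have h1 := pair_mem hab
    rw [rk_V7 h1.1, rk_V7 h1.2]
  · intro a ha b hb
    rw [rk_V7 hb]
    simp only [List.mem_cons, List.not_mem_nil, or_false] at ha
    rcases ha with rfl | rfl | rfl | rfl <;> decide
  · intro a ha b hb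
    have h3 : rk a ≤ 3 := by
      rcases List.mem_append.1 ha with ha | ha
      · simp only [List.mem_cons, List.not_mem_nil, or_false] at ha
        rcases ha with rfl | rfl | rfl | rfl <;> decide
      · rw [rk_V7 ha]
    refine h3.trans ?_
    simp only [List.mem_cons, List.not_mem_nil, or_false] at hb
    rcases hb with rfl | rfl | rfl | rfl <;> decide

theorem rk_le {v : List ℕ} {x y : ℕ} (h : [x, y].Sublist (c0 v)) : rk x ≤ rk y := by
  have h1 := (c0_pw v).sublist h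
  exact List.rel_of_pairwise_cons h1 (by simp)

/-- the data of the row -/
structure Dat (v : List ℕ) (f : ℕ → List ℕ) (p α : List ℕ) : Prop where
  m0 : ∀ c, c ∈ p ++ (c0 v).flatMap f ++ α ↔ c ∈ c0 v
  pt : ∀ c d, c ≠ d → ([c, d].Sublist (p ++ (c0 v).flatMap f ++ α) ↔ [c, d].Sublist (c0 v))
  le4 : ∀ i, 1 ≤ i → i ≤ 4 → ∀ x ∈ f i, 1 ≤ x ∧ x ≤ 4

theorem Dat.ord {v : List ℕ} {f : ℕ → List ℕ} {p α : List ℕ} (D : Dat v f p α) {c d : ℕ}
    (h : [c, d].Sublist (p ++ (c0 v).flatMap f ++ α)) : rk c ≤ rk d := by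
  by_cases hcd : c = d
  · rw [hcd]
  · exact rk_le ((D.pt c d hcd).1 h)

theorem c0_split (v : List ℕ) {i : ℕ} (h1 : 1 ≤ i) (h4 : i ≤ 4) : i ∈ c0 v := by
  unfold c0
  simp only [List.mem_append, List.mem_cons, List.not_mem_nil, or_false]
  omega

/-- letters between -/
theorem between {v : List ℕ} (hv : ∃ z, z ∈ V7 v) {k k' : ℕ} (h1 : 1 ≤ k) (h2 : k < k')
    (h3 : k' ≤ 4) : ∃ z ∈ c0 v, 5 ≤ z ∧ rk k < rk z ∧ rk z < rk k' := by
  have hk : k = 1 ∨ k = 2 ∨ k = 3 := by omega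
  rcases hk with rfl | rfl | rfl
  · refine ⟨5, by unfold c0; simp, by norm_num, by decide, ?_⟩
    have hk' : k' = 2 ∨ k' = 3 ∨ k' = 4 := by omega
    rcases hk' with rfl | rfl | rfl <;> decide
  · obtain ⟨z, hz⟩ := hv
    refine ⟨z, by unfold c0; simp [hz], by have := mem_V7 hz; omega, ?_, ?_⟩
    · rw [rk_V7 hz]
      decide
    · rw [rk_V7 hz]
      have hk' : k' = 3 ∨ k' = 4 := by omega
      rcases hk' with rfl | rfl <;> decide
  · refine ⟨6, by unfold c0; simp, by norm_num, by decide, ?_⟩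
    have hk' : k' = 4 := by omega
    rw [hk']
    decide

theorem single_aux {v : List ℕ} {f : ℕ → List ℕ} {p α : List ℕ} (D : Dat v f p α)
    (hv : ∃ z, z ∈ V7 v) {i : ℕ} (h1 : 1 ≤ i) (h4 : i ≤ 4) {k k' : ℕ} (hk : k ∈ f i)
    (hk' : k' ∈ f i) : ¬ k < k' := by
  intro hlt
  have a1 := D.le4 i h1 h4 k hk
  have a2 := D.le4 i h1 h4 k' hk'
  obtain ⟨z, hz, hz5, hz1, hz2⟩ := between hv a1.1 hlt a2.2
  have hz0 := (D.m0 z).2 hz
  have hzi : z ∉ f i := by
    intro h
    have := D.le4 i h1 h4 z h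
    omega
  obtain ⟨A, B, hAB⟩ := List.append_of_mem (c0_split v h1 h4)
  have e : p ++ (c0 v).flatMap f ++ α = (p ++ A.flatMap f) ++ (f i ++ (B.flatMap f ++ α)) := by
    rw [hAB, List.flatMap_append, List.flatMap_cons]
    simp only [List.append_assoc]
  rw [e] at hz0
  rcases List.mem_append.1 hz0 with h | h
  · have h5 : [z, k].Sublist (p ++ (c0 v).flatMap f ++ α) := by
      rw [e, pair_append]
      exact Or.inr (Or.inl ⟨h, List.mem_append.2 (Or.inl hk)⟩)
    have h6 := D.ord h5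
    omega
  rcases List.mem_append.1 h with h | h
  · exact hzi h
  · have h5 : [k', z].Sublist (p ++ (c0 v).flatMap f ++ α) := by
      rw [e, pair_append]
      refine Or.inr (Or.inr ?_)
      rw [pair_append]
      exact Or.inr (Or.inl ⟨hk', h⟩)
    have h6 := D.ord h5
    omega

theorem single {v : List ℕ} {f : ℕ → List ℕ} {p α : List ℕ} (D : Dat v f p α)
    (hv : ∃ z, z ∈ V7 v) {i : ℕ} (h1 : 1 ≤ i) (h4 : i ≤ 4) {k : ℕ} (hk : k ∈ f i) :
    Sg (f i) k := by
  intro x hx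
  have a1 := single_aux D hv h1 h4 hk hx
  have a2 := single_aux D hv h1 h4 hx hk
  omega

theorem rk_mono {x y : ℕ} (hx : 1 ≤ x) (hy : y ≤ 4) (hy1 : 1 ≤ y) (hx4 : x ≤ 4)
    (h : rk x ≤ rk y) : x ≤ y := by
  have h1 : x = 1 ∨ x = 2 ∨ x = 3 ∨ x = 4 := by omega
  have h2 : y = 1 ∨ y = 2 ∨ y = 3 ∨ y = 4 := by omega
  revert h
  rcases h1 with rfl | rfl | rfl | rfl <;> rcases h2 with rfl | rfl | rfl | rfl <;> decide

theorem mono {v : List ℕ} {f : ℕ → List ℕ} {p α : List ℕ} (D : Dat v f p α) {i j : ℕ}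
    (h1 : 1 ≤ i) (hij : i < j) (h4 : j ≤ 4) {x y : ℕ} (hx : x ∈ f i) (hy : y ∈ f j) : x ≤ y := by
  have a1 := D.le4 i h1 (by omega) x hx
  have a2 := D.le4 j (by omega) h4 y hy
  refine rk_mono a1.1 a2.2 a2.1 a1.2 (D.ord ?_)
  rw [pair_append, pair_append]
  refine Or.inl (Or.inr (Or.inr ?_))
  rw [pair_flatMap]
  refine Or.inr ⟨i, j, ?_, hx, hy⟩
  rcases pair_total (c0_split v h1 (by omega)) (c0_split v (by omega) h4) (by omega) with h | h
  · exact h
  · have h5 := rk_le h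
    have h6 := rk_mono (by omega) (by omega) h1 h4 h5
    omega

/-- the chain between two letters -/
theorem gap (hHGT : MWP.HgtStmt) {v : List ℕ} {f : ℕ → List ℕ} {p α : List ℕ} (D : Dat v f p α)
    {i i' : ℕ} (A M0 C M : List ℕ) (hc : c0 v = A ++ i :: (M0 ++ i' :: C))
    (hM : M0.flatMap f = M.flatMap f) {κ κ' : ℕ} (hκ : κ ∈ f i) (hκ' : κ' ∈ f i')
    (s1 : Sg (f i) κ) (s2 : Sg (f i') κ') (hMM : ∀ ζ ∈ M, [ζ, ζ].Sublist M) (T : List ℕ)
    (hT : ∀ x ∈ T, x ∈ c0 v ∧ rk κ < rk x ∧ rk x < rk κ')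
    (hTp : T.Pairwise (fun x y => x ≠ y ∧ ¬ [y, x].Sublist (c0 v))) :
    ∃ T', Chn M T' ∧ T'.length = T.length := by
  have e : p ++ (c0 v).flatMap f ++ α =
      (p ++ A.flatMap f ++ f i) ++ M.flatMap f ++ (f i' ++ C.flatMap f ++ α) := by
    rw [hc, List.flatMap_append, List.flatMap_cons, List.flatMap_append, List.flatMap_cons, hM]
    simp only [List.append_assoc]
  refine hHGT f (p ++ A.flatMap f ++ f i) M (f i' ++ C.flatMap f ++ α) T hMM ?_ ?_
  · intro x hx
    obtain ⟨hx0, hx1, hx2⟩ := hT x hx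
    have h1 := (D.m0 x).2 hx0
    rw [e] at h1
    simp only [List.mem_append] at h1
    have bad1 : x ∈ p ++ A.flatMap f → False := by
      intro h
      have h5 : [x, κ].Sublist (p ++ (c0 v).flatMap f ++ α) := by
        rw [e]
        simp only [List.append_assoc]
        rw [← List.append_assoc p, pair_append]
        exact Or.inr (Or.inl ⟨h, List.mem_append.2 (Or.inl hκ)⟩)
      have h6 := D.ord h5
      omega
    have bad2 : x ∈ C.flatMap f ++ α → False := by
      intro h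
      have h5 : [κ', x].Sublist (p ++ (c0 v).flatMap f ++ α) := by
        rw [e, List.append_assoc (f i'), pair_append, pair_append (A := f i')]
        exact Or.inr (Or.inr (Or.inr (Or.inl ⟨hκ', h⟩)))
      have h6 := D.ord h5
      omega
    rcases h1 with ((((h | h) | h) | h) | ((h | h) | h))
    · exact (bad1 (List.mem_append.2 (Or.inl h))).elim
    · exact (bad1 (List.mem_append.2 (Or.inr h))).elim
    · have := s1 x h
      rw [this] at hx1
      omega
    · exact h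
    · have := s2 x h
      rw [this] at hx2
      omega
    · exact (bad2 (List.mem_append.2 (Or.inl h))).elim
    · exact (bad2 (List.mem_append.2 (Or.inr h))).elim
  · refine hTp.imp ?_
    rintro x y ⟨h1, h2⟩
    refine ⟨h1, ?_⟩
    rw [← e, D.pt y x (Ne.symm h1)]
    exact h2

theorem rk_lo {κ : ℕ} (h1 : 1 ≤ κ) (h2 : κ ≤ 2) : rk κ < 3 := by
  have h : κ = 1 ∨ κ = 2 := by omega
  rcases h with rfl | rfl <;> decide

theorem rk_hi {κ : ℕ} (h1 : 3 ≤ κ) (h2 : κ ≤ 4) : 3 < rk κ := by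
  have h : κ = 3 ∨ κ = 4 := by omega
  rcases h with rfl | rfl <;> decide

theorem map (hHGT : MWP.HgtStmt) (hHTC : HtcStmt) : MapStmt := by
  intro n v h hm hh h2 f p α γ q u hu hB
  obtain ⟨H1, H2, H3, H4, H5, T, hTl, hTv, hTp1, hTp2⟩ := hHTC v h hh
  have hv : ∃ z, z ∈ V7 v := by
    cases hT' : T with
    | nil =>
      rw [hT'] at hTl
      simp at hTl
      omega
    | cons z T0 => exact ⟨z, hTv z (by rw [hT']; simp)⟩
  have D : Dat v f p α := by
    refine ⟨hB.m0, hB.pt, ?_⟩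
    intro i h1 h4 x hx
    have h5 := (hB.m1 x).1 (by
      rw [List.mem_append, List.mem_append]
      exact Or.inl (Or.inr (List.mem_flatMap.2 ⟨i, (hu i).2 ⟨h1, h4⟩, hx⟩)))
    exact h5
  have hTp : T.Pairwise (fun x y => x ≠ y ∧ ¬ [y, x].Sublist (c0 v)) :=
    (List.pairwise_cons.1 (List.pairwise_cons.1 hTp1).2).2
  have hTc : ∀ x ∈ T, x ∈ c0 v := by
    intro x hx
    unfold c0
    simp [hTv x hx]
  have hT3 : ∀ x ∈ T, rk x = 3 := fun x hx => rk_V7 (hTv x hx)
  -- the three chains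
  have ch0 : ∀ {κ κ' : ℕ}, 1 ≤ κ → κ ≤ 2 → 3 ≤ κ' → κ' ≤ 4 →
      ∀ x ∈ T, x ∈ c0 v ∧ rk κ < rk x ∧ rk x < rk κ' := by
    intro κ κ' a1 a2 a3 a4 x hx
    rw [hT3 x hx]
    exact ⟨hTc x hx, rk_lo a1 a2, rk_hi a3 a4⟩
  have ch1 : ∀ {κ' : ℕ}, 3 ≤ κ' → κ' ≤ 4 →
      ∀ x ∈ 5 :: 2 :: T, x ∈ c0 v ∧ rk 1 < rk x ∧ rk x < rk κ' := by
    intro κ' a3 a4 x hx
    rcases List.mem_cons.1 hx with rfl | hx
    · refine ⟨by unfold c0; simp, by decide, lt_trans ?_ (rk_hi a3 a4)⟩
      decide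
    · rcases List.mem_cons.1 hx with rfl | hx
      · refine ⟨by unfold c0; simp, by decide, lt_trans ?_ (rk_hi a3 a4)⟩
        decide
      · exact ch0 (κ := 1) (le_refl _) (by norm_num) a3 a4 x hx
  have ch2 : ∀ {κ : ℕ}, 1 ≤ κ → κ ≤ 2 →
      ∀ x ∈ T ++ [3, 6], x ∈ c0 v ∧ rk κ < rk x ∧ rk x < rk 4 := by
    intro κ a1 a2 x hx
    rcases List.mem_append.1 hx with hx | hx
    · exact ch0 (κ' := 4) a1 a2 (by norm_num) (le_refl _) x hx
    · simp only [List.mem_cons, List.not_mem_nil, or_false] at hx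
      rcases hx with rfl | rfl
      · exact ⟨by unfold c0; simp, lt_trans (rk_lo a1 a2) (by decide), by decide⟩
      · exact ⟨by unfold c0; simp, lt_trans (rk_lo a1 a2) (by decide), by decide⟩
  have l1 : (5 :: 2 :: T).length = h + 2 := by simp [hTl]
  have l2 : (T ++ [3, 6]).length = h + 2 := by simp [hTl]
  have mm5 : ∀ ζ ∈ [5, 5], [ζ, ζ].Sublist [5, 5] := by
    intro ζ hζ
    have : ζ = 5 := by simpa using hζ
    rw [this]
  have mm6 : ∀ ζ ∈ [6, 6], [ζ, ζ].Sublist [6, 6] := by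
    intro ζ hζ
    have : ζ = 6 := by simpa using hζ
    rw [this]
  -- excluded pairs
  have G12 : ∀ {κ κ' : ℕ}, κ ∈ f 1 → κ ≤ 2 → κ' ∈ f 2 → 3 ≤ κ' → False := by
    intro κ κ' a1 a2 a3 a4
    have b1 := D.le4 1 (by norm_num) (by norm_num) κ a1
    have b2 := D.le4 2 (by norm_num) (by norm_num) κ' a3
    obtain ⟨T', c1, c2⟩ := gap hHGT D (i := 1) (i' := 2) [] [5, 5]
      (V7 v ++ [3, 6, 6, 4]) [5, 5] (by unfold c0; simp) rfl a1 a3
      (single D hv (by norm_num) (by norm_num) a1) (single D hv (by norm_num) (by norm_num) a3)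
      mm5 T (ch0 b1.1 a2 a4 b2.2) hTp
    have c3 := H4 T' c1
    omega
  have G34 : ∀ {κ κ' : ℕ}, κ ∈ f 3 → κ ≤ 2 → κ' ∈ f 4 → 3 ≤ κ' → False := by
    intro κ κ' a1 a2 a3 a4
    have b1 := D.le4 3 (by norm_num) (by norm_num) κ a1
    have b2 := D.le4 4 (by norm_num) (by norm_num) κ' a3
    obtain ⟨T', c1, c2⟩ := gap hHGT D (i := 3) (i' := 4) ([1, 5, 5, 2] ++ V7 v) [6, 6]
      [] [6, 6] (by unfold c0; simp) rfl a1 a3
      (single D hv (by norm_num) (by norm_num) a1) (single D hv (by norm_num) (by norm_num) a3)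
      mm6 T (ch0 b1.1 a2 a4 b2.2) hTp
    have c3 := H5 T' c1
    omega
  have G23 : ∀ {κ κ' : ℕ}, κ ∈ f 2 → κ ≤ 2 → κ' ∈ f 3 → 3 ≤ κ' → κ = 2 ∧ κ' = 3 := by
    intro κ κ' a1 a2 a3 a4
    have b1 := D.le4 2 (by norm_num) (by norm_num) κ a1
    have b2 := D.le4 3 (by norm_num) (by norm_num) κ' a3
    have key := gap hHGT D (i := 2) (i' := 3) [1, 5, 5] (V7 v) [6, 6, 4] (V7 v)
      (by unfold c0; simp) rfl a1 a3
      (single D hv (by norm_num) (by norm_num) a1) (single D hv (by norm_num) (by norm_num) a3)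
      (fun ζ hζ => V7_dbl hm hζ)
    constructor
    · by_contra hne
      have hk : κ = 1 := by omega
      rw [hk] at key
      obtain ⟨T', c1, c2⟩ := key (5 :: 2 :: T) (ch1 a4 b2.2) hTp1
      have c3 := H1 T' c1
      omega
    · by_contra hne
      have hk : κ' = 4 := by omega
      rw [hk] at key
      obtain ⟨T', c1, c2⟩ := key (T ++ [3, 6]) (ch2 b1.1 a2) hTp2
      have c3 := H1 T' c1
      omega
  have G24 : ∀ {κ κ' : ℕ}, f 3 = [] → κ ∈ f 2 → κ ≤ 2 → κ' ∈ f 4 → 3 ≤ κ' → κ = 2 ∧ κ' = 3 := by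
    intro κ κ' a0 a1 a2 a3 a4
    have b1 := D.le4 2 (by norm_num) (by norm_num) κ a1
    have b2 := D.le4 4 (by norm_num) (by norm_num) κ' a3
    have key := gap hHGT D (i := 2) (i' := 4) [1, 5, 5] (V7 v ++ [3, 6, 6]) []
      (V7 v ++ [6, 6]) (by unfold c0; simp) (by simp [List.flatMap_append, a0]) a1 a3
      (single D hv (by norm_num) (by norm_num) a1) (single D hv (by norm_num) (by norm_num) a3)
      (by
        intro ζ hζ
        rw [pair_append]
        rcases List.mem_append.1 hζ with hζ | hζ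
        · exact Or.inl (V7_dbl hm hζ)
        · exact Or.inr (Or.inr (mm6 ζ hζ)))
    constructor
    · by_contra hne
      have hk : κ = 1 := by omega
      rw [hk] at key
      obtain ⟨T', c1, c2⟩ := key (5 :: 2 :: T) (ch1 a4 b2.2) hTp1
      have c3 := H2 T' c1
      omega
    · by_contra hne
      have hk : κ' = 4 := by omega
      rw [hk] at key
      obtain ⟨T', c1, c2⟩ := key (T ++ [3, 6]) (ch2 b1.1 a2) hTp2
      have c3 := H2 T' c1
      omega
  have G13 : ∀ {κ κ' : ℕ}, f 2 = [] → κ ∈ f 1 → κ ≤ 2 → κ' ∈ f 3 → 3 ≤ κ' → κ' = 3 := by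
    intro κ κ' a0 a1 a2 a3 a4
    have b1 := D.le4 1 (by norm_num) (by norm_num) κ a1
    have b2 := D.le4 3 (by norm_num) (by norm_num) κ' a3
    have key := gap hHGT D (i := 1) (i' := 3) [] ([5, 5, 2] ++ V7 v) [6, 6, 4]
      ([5, 5] ++ V7 v) (by unfold c0; simp) (by simp [a0]) a1 a3
      (single D hv (by norm_num) (by norm_num) a1) (single D hv (by norm_num) (by norm_num) a3)
      (by
        intro ζ hζ
        rw [pair_append]
        rcases List.mem_append.1 hζ with hζ | hζ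
        · exact Or.inl (mm5 ζ hζ)
        · exact Or.inr (Or.inr (V7_dbl hm hζ)))
    by_contra hne
    have hk : κ' = 4 := by omega
    rw [hk] at key
    obtain ⟨T', c1, c2⟩ := key (T ++ [3, 6]) (ch2 b1.1 a2) hTp2
    have c3 := H3 T' c1
    omega
  have sgl : ∀ i, 1 ≤ i → i ≤ 4 → ∀ k ∈ f i, Sg (f i) k := fun i a b k hk => single D hv a b hk
  -- the cases
  by_cases alt1 : ∀ c, 1 ≤ c → c ≤ 4 → ∀ x ∈ f c, x = 1 ∨ x = 2
  · exact Or.inl alt1
  by_cases alt2 : ∀ c, 1 ≤ c → c ≤ 4 → ∀ x ∈ f c, x = 3 ∨ x = 4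
  · exact Or.inr (Or.inl alt2)
  push Not at alt1 alt2
  obtain ⟨j, j1, j4, y, hy, hy1, hy2⟩ := alt1
  obtain ⟨i, i1, i4, x, hx, hx1, hx2⟩ := alt2
  have ry := D.le4 j j1 j4 y hy
  have rx := D.le4 i i1 i4 x hx
  have hxl : x ≤ 2 := by omega
  have hyh : 3 ≤ y := by omega
  have lowNoHigh : ∀ {a b s t : ℕ}, 1 ≤ a → a ≤ 4 → 1 ≤ b → b ≤ 4 → s ∈ f a → t ∈ f b →
      s ≤ 2 → 3 ≤ t → a < b := by
    intro a b s t a1 a4 b1 b4 hs ht hs2 ht3
    rcases Nat.lt_trichotomy a b with h5 | h5 | h5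
    · exact h5
    · rw [← h5] at ht
      have := sgl a a1 a4 s hs t ht
      omega
    · have := mono D b1 h5 a4 ht hs
      omega
  have hij : i < j := lowNoHigh i1 i4 j1 j4 hx hy hxl hyh
  have s1 : Sg (f 1) 1 ∨ Sg (f 1) 2 ∨ ∃ k ∈ f 1, 3 ≤ k := by
    cases hf : f 1 with
    | nil => exact Or.inl (fun z hz => by simp at hz)
    | cons k l =>
      have hk : k ∈ f 1 := by rw [hf]; simp
      have r := D.le4 1 (by norm_num) (by norm_num) k hk
      have s := sgl 1 (by norm_num) (by norm_num) k hk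
      rw [hf] at s
      have hk' : k = 1 ∨ k = 2 ∨ 3 ≤ k := by omega
      rcases hk' with h5 | h5 | h5
      · rw [h5] at s ⊢
        exact Or.inl s
      · rw [h5] at s ⊢
        exact Or.inr (Or.inl s)
      · exact Or.inr (Or.inr ⟨k, by simp, h5⟩)
  have s1' : Sg (f 1) 1 ∨ Sg (f 1) 2 := by
    rcases s1 with h5 | h5 | ⟨k, hk, hk3⟩
    · exact Or.inl h5
    · exact Or.inr h5
    · have := lowNoHigh i1 i4 (by norm_num) (by norm_num) hx hk hxl hk3
      omega
  have s4 : Sg (f 4) 3 ∨ Sg (f 4) 4 := by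
    cases hf : f 4 with
    | nil => exact Or.inl (fun z hz => by simp at hz)
    | cons k l =>
      have hk : k ∈ f 4 := by rw [hf]; simp
      have r := D.le4 4 (by norm_num) (by norm_num) k hk
      have s := sgl 4 (by norm_num) (by norm_num) k hk
      rw [hf] at s
      have hk' : k ≤ 2 ∨ k = 3 ∨ k = 4 := by omega
      rcases hk' with h5 | h5 | h5
      · have := lowNoHigh (by norm_num) (by norm_num) j1 j4 hk hy h5 hyh
        omega
      · rw [h5] at s ⊢
        exact Or.inl s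
      · rw [h5] at s ⊢
        exact Or.inr s
  right
  right
  by_cases e2 : f 2 = []
  · by_cases e3 : f 3 = []
    · refine ⟨s1', ?_, ?_, s4, fun h5 => (h5 e2).elim⟩
      · rw [e2]
        intro z hz
        simp at hz
      · rw [e3]
        intro z hz
        simp at hz
    · obtain ⟨z, hz⟩ := List.exists_mem_of_ne_nil _ e3
      have rz := D.le4 3 (by norm_num) (by norm_num) z hz
      have z3 : 3 ≤ z := by
        by_contra hlt
        have hj := lowNoHigh (by norm_num) (by norm_num) j1 j4 hz hy (by omega) hyh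
        have hj4 : j = 4 := by omega
        rw [hj4] at hy
        exact G34 hz (by omega) hy hyh
      have hi := lowNoHigh i1 i4 (by norm_num) (by norm_num) hx hz hxl z3
      have hi1 : i = 1 := by
        have hi2 : i ≠ 2 := by
          intro h5
          rw [h5, e2] at hx
          simp at hx
        omega
      rw [hi1] at hx
      have hz3 := G13 e2 hx hxl hz z3
      have s3 := sgl 3 (by norm_num) (by norm_num) z hz
      rw [hz3] at s3
      refine ⟨s1', ?_, s3, s4, fun h5 => (h5 e2).elim⟩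
      rw [e2]
      intro z hz
      simp at hz
  · obtain ⟨z, hz⟩ := List.exists_mem_of_ne_nil _ e2
    have rz := D.le4 2 (by norm_num) (by norm_num) z hz
    have z2 : z ≤ 2 := by
      by_contra hlt
      have hi := lowNoHigh i1 i4 (by norm_num) (by norm_num) hx hz hxl (by omega)
      have hi1 : i = 1 := by omega
      rw [hi1] at hx
      exact G12 hx hxl hz (by omega)
    by_cases e3 : f 3 = []
    · have hj := lowNoHigh (by norm_num) (by norm_num) j1 j4 hz hy z2 hyh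
      have hj4 : j = 4 := by
        have hj3 : j ≠ 3 := by
          intro h5
          rw [h5, e3] at hy
          simp at hy
        omega
      rw [hj4] at hy
      obtain ⟨k1, k2⟩ := G24 e3 hz z2 hy hyh
      have s2 := sgl 2 (by norm_num) (by norm_num) z hz
      have s4' := sgl 4 (by norm_num) (by norm_num) y hy
      rw [k1] at s2
      rw [k2] at s4'
      refine ⟨s1', s2, ?_, s4, fun _ _ => s4'⟩
      rw [e3]
      intro z hz
      simp at hz
    · obtain ⟨t, ht⟩ := List.exists_mem_of_ne_nil _ e3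
      have rt := D.le4 3 (by norm_num) (by norm_num) t ht
      have t3 : 3 ≤ t := by
        by_contra hlt
        have hj := lowNoHigh (by norm_num) (by norm_num) j1 j4 ht hy (by omega) hyh
        have hj4 : j = 4 := by omega
        rw [hj4] at hy
        exact G34 ht (by omega) hy hyh
      obtain ⟨k1, k2⟩ := G23 hz z2 ht t3
      have s2 := sgl 2 (by norm_num) (by norm_num) z hz
      have s3 := sgl 3 (by norm_num) (by norm_num) t ht
      rw [k1] at s2
      rw [k2] at s3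
      exact ⟨s1', s2, s3, s4, fun _ h5 => (e3 h5).elim⟩

end Pool.Agent.MWPN.H77
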